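import Mathlib
import Pool.Agent.H273.TreeInd

set_option autoImplicit false

/-! # External and self private neighbours in trees: the constant is `4/5` -/

namespace Pool.Agent.Results.MP_0d27c8_co.FourFifths

open Classical

/-- the external private neighbours with respect to `U`: the vertices outside `U` with exactly one
neighbour in `U` -/
noncomputable def external {V : Type} [Fintype V] (G : SimpleGraph V) (U : Finset V) : Finset V :=
  Finset.univ.filter (fun w => w ∉ U ∧ ∃! x, G.Adj w x ∧ x ∈ U)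

/-- the self private neighbours with respect to `U`: the vertices of `U` with no neighbour in
`U` -/
noncomputable def selfp {V : Type} [Fintype V] (G : SimpleGraph V) (U : Finset V) : Finset V :=
  Finset.univ.filter (fun w => w ∈ U ∧ ∀ x ∈ U, ¬ G.Adj w x)

theorem mem_external {V : Type} [Fintype V] {G : SimpleGraph V} {U : Finset V} {w : V} :
    w ∈ external G U ↔ w ∉ U ∧ ∃! x, G.Adj w x ∧ x ∈ U := by
  rw [external, Finset.mem_filter]
  exact ⟨fun h => h.2, fun h => ⟨Finset.mem_univ _, h⟩⟩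

theorem mem_selfp {V : Type} [Fintype V] {G : SimpleGraph V} {U : Finset V} {w : V} :
    w ∈ selfp G U ↔ w ∈ U ∧ ∀ x ∈ U, ¬ G.Adj w x := by
  rw [selfp, Finset.mem_filter]
  exact ⟨fun h => h.2, fun h => ⟨Finset.mem_univ _, h⟩⟩

/-- `ESPN(G)`: the maximum over all vertex sets `U` of the number of external private neighbours
plus the number of self private neighbours -/
noncomputable def ESPN {V : Type} [Fintype V] (G : SimpleGraph V) : ℕ :=
  Finset.univ.sup (fun U : Finset V => (external G U).card + (selfp G U).card)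

section lower

variable {V : Type} [Fintype V]

/-- the number of elements of `U` in the closed neighbourhood of `w` -/
noncomputable def cov (G : SimpleGraph V) (U : Finset V) (w : V) : ℕ :=
  (U.filter (fun x => x = w ∨ G.Adj w x)).card

theorem espn_ge (G : SimpleGraph V) (U : Finset V) :
    (Finset.univ.filter (fun w => cov G U w = 1)).card ≤ ESPN G := by
  have h1 : (Finset.univ.filter (fun w => cov G U w = 1)) ⊆ external G U ∪ selfp G U := by
    intro w hw
    have hw1 : cov G U w = 1 := (Finset.mem_filter.1 hw).2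
    rw [Finset.mem_union]
    by_cases hU : w ∈ U
    · right
      rw [selfp, Finset.mem_filter]
      refine ⟨Finset.mem_univ _, hU, ?_⟩
      intro x hx hadj
      rw [cov, Finset.card_eq_one] at hw1
      obtain ⟨a, ha⟩ := hw1
      have h2 : w ∈ ({a} : Finset V) := by
        rw [← ha]; exact Finset.mem_filter.2 ⟨hU, Or.inl rfl⟩
      have h3 : x ∈ ({a} : Finset V) := by
        rw [← ha]; exact Finset.mem_filter.2 ⟨hx, Or.inr hadj⟩
      rw [Finset.mem_singleton] at h2 h3
      rw [h2, h3] at hadj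
      exact G.loopless.1 _ hadj
    · left
      rw [external, Finset.mem_filter]
      refine ⟨Finset.mem_univ _, hU, ?_⟩
      rw [cov, Finset.card_eq_one] at hw1
      obtain ⟨a, ha⟩ := hw1
      have h2 : a ∈ U.filter (fun x => x = w ∨ G.Adj w x) := by
        rw [ha]; exact Finset.mem_singleton_self a
      rw [Finset.mem_filter] at h2
      refine ⟨a, ⟨h2.2.resolve_left (fun h => hU (h ▸ h2.1)), h2.1⟩, ?_⟩
      rintro y ⟨hy1, hy2⟩
      have h3 : y ∈ U.filter (fun x => x = w ∨ G.Adj w x) :=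
        Finset.mem_filter.2 ⟨hy2, Or.inr hy1⟩
      rw [ha] at h3
      exact Finset.mem_singleton.1 h3
  calc _ ≤ (external G U ∪ selfp G U).card := Finset.card_le_card h1
    _ ≤ (external G U).card + (selfp G U).card := Finset.card_union_le _ _
    _ ≤ ESPN G := Finset.le_sup (f := fun U : Finset V => (external G U).card + (selfp G U).card)
        (Finset.mem_univ U)

/-- the state of the root: `0`: in `U` and private; `1`, `2`, `3`: outside `U` with `0`, `1`,
at least `2` neighbours in `U` -/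
def St (G : SimpleGraph V) (U : Finset V) (r : V) (s : Fin 4) : Prop :=
  if s = 0 then r ∈ U ∧ cov G U r = 1
  else if s = 1 then r ∉ U ∧ cov G U r = 0
  else if s = 2 then r ∉ U ∧ cov G U r = 1
  else r ∉ U ∧ 2 ≤ cov G U r

/-- a set `U ⊆ S` with root state `s` such that five times the number of private non-root
vertices is at least `4|S| + m` -/
def H (G : SimpleGraph V) (S : Finset V) (r : V) (s : Fin 4) (m : ℤ) : Prop :=
  ∃ U ⊆ S, St G U r s ∧
    4 * (S.card : ℤ) + m ≤ 5 * ((S.filter (fun w => w ≠ r ∧ cov G U w = 1)).card : ℤ)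

/-- the new root state -/
def fs (s₁ s₂ : Fin 4) : Fin 4 := if s₂ = 0 then (if s₁ = 1 then 2 else 3) else s₁

/-- the gain -/
def gn (s₁ s₂ : Fin 4) : ℤ :=
  if s₂ = 0 then 5 else if s₂ = 1 then (if s₁ = 0 then 5 else 0)
  else if s₂ = 2 then (if s₁ = 0 then 0 else 5) else 0

omit [Fintype V] in
theorem cov_union (G : SimpleGraph V) {U₁ U₂ : Finset V} (h : Disjoint U₁ U₂) (w : V) :
    cov G (U₁ ∪ U₂) w = cov G U₁ w + cov G U₂ w := by
  unfold cov
  rw [Finset.filter_union, Finset.card_union_of_disjoint (Finset.disjoint_filter_filter h)]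

omit [Fintype V] in
theorem cov_zero (G : SimpleGraph V) {U : Finset V} {w : V} (h : ∀ x ∈ U, x ≠ w ∧ ¬ G.Adj w x) :
    cov G U w = 0 := by
  unfold cov
  rw [Finset.card_eq_zero, Finset.filter_eq_empty_iff]
  intro x hx h'
  rcases h' with h' | h'
  · exact (h x hx).1 h'
  · exact (h x hx).2 h'

omit [Fintype V] in
theorem cov_one (G : SimpleGraph V) {U : Finset V} {w c : V} (hc : c ∈ U) (hwc : G.Adj w c)
    (h : ∀ x ∈ U, x ≠ c → x ≠ w ∧ ¬ G.Adj w x) :
    cov G U w = 1 := by
  unfold cov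
  rw [Finset.card_eq_one]
  refine ⟨c, ?_⟩
  ext x
  rw [Finset.mem_filter, Finset.mem_singleton]
  constructor
  · rintro ⟨hx, h'⟩
    by_contra hxc
    rcases h' with h' | h'
    · exact (h x hx hxc).1 h'
    · exact (h x hx hxc).2 h'
  · rintro rfl
    exact ⟨hc, Or.inr hwc⟩

theorem merge {G : SimpleGraph V} {S₁ S₂ : Finset V} {r c : V} (hr : r ∈ S₁) (hc : c ∈ S₂)
    (hd : Disjoint S₁ S₂) (hrc : G.Adj r c)
    (hx : ∀ x ∈ S₁, ∀ y ∈ S₂, G.Adj x y → x = r ∧ y = c) {s₁ s₂ : Fin 4} {m₁ m₂ : ℤ}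
    (h1 : H G S₁ r s₁ m₁) (h2 : H G S₂ c s₂ m₂) (hne : ¬ (s₁ = 0 ∧ s₂ = 0)) :
    H G (S₁ ∪ S₂) r (fs s₁ s₂) (m₁ + m₂ + gn s₁ s₂) := by
  obtain ⟨U₁, hU₁, hs1, hk1⟩ := h1
  obtain ⟨U₂, hU₂, hs2, hk2⟩ := h2
  have hdU : Disjoint U₁ U₂ := Finset.disjoint_of_subset_left hU₁
    (Finset.disjoint_of_subset_right hU₂ hd)
  have hne' : ∀ x ∈ S₁, ∀ y ∈ S₂, x ≠ y := by
    intro x hx y hy h
    exact Finset.disjoint_left.1 hd hx (h ▸ hy)
  -- coverage of the different vertices
  have c1 : ∀ w ∈ S₁, w ≠ r → cov G (U₁ ∪ U₂) w = cov G U₁ w := by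
    intro w hw hwr
    rw [cov_union G hdU, cov_zero G (U := U₂), add_zero]
    intro x hx'
    refine ⟨(hne' w hw x (hU₂ hx')).symm, fun h => hwr (hx w hw x (hU₂ hx') h).1⟩
  have c2 : ∀ w ∈ S₂, w ≠ c → cov G (U₁ ∪ U₂) w = cov G U₂ w := by
    intro w hw hwr
    rw [cov_union G hdU, cov_zero G (U := U₁), zero_add]
    intro x hx'
    refine ⟨hne' x (hU₁ hx') w hw, fun h => hwr (hx x (hU₁ hx') w hw (G.adj_symm h)).2⟩
  have c3 : cov G (U₁ ∪ U₂) r = cov G U₁ r + if c ∈ U₂ then 1 else 0 := by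
    rw [cov_union G hdU]
    congr 1
    split_ifs with h
    · refine cov_one G h hrc ?_
      intro x hx' hxc
      refine ⟨(hne' r hr x (hU₂ hx')).symm, fun h' => hxc (hx r hr x (hU₂ hx') h').2⟩
    · refine cov_zero G ?_
      intro x hx'
      refine ⟨(hne' r hr x (hU₂ hx')).symm, fun h' => ?_⟩
      exact h ((hx r hr x (hU₂ hx') h').2 ▸ hx')
  have c4 : cov G (U₁ ∪ U₂) c = cov G U₂ c + if r ∈ U₁ then 1 else 0 := by
    rw [cov_union G hdU, add_comm]
    congr 1
    split_ifs with h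
    · refine cov_one G h (G.adj_symm hrc) ?_
      intro x hx' hxc
      refine ⟨hne' x (hU₁ hx') c hc, fun h' => hxc (hx x (hU₁ hx') c hc (G.adj_symm h')).1⟩
    · refine cov_zero G ?_
      intro x hx'
      refine ⟨hne' x (hU₁ hx') c hc, fun h' => ?_⟩
      exact h ((hx x (hU₁ hx') c hc (G.adj_symm h')).1 ▸ hx')
  have hrU2 : r ∉ U₂ := fun h => hne' r hr r (hU₂ h) rfl
  have hmem : r ∈ U₁ ∪ U₂ ↔ r ∈ U₁ := by
    rw [Finset.mem_union]; exact ⟨fun h => h.resolve_right hrU2, Or.inl⟩
  -- the counts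
  have hcount : ((S₁.filter (fun w => w ≠ r ∧ cov G U₁ w = 1)).card : ℤ) +
      ((S₂.filter (fun w => w ≠ c ∧ cov G U₂ w = 1)).card : ℤ) +
      (if cov G (U₁ ∪ U₂) c = 1 then 1 else 0) ≤
      (((S₁ ∪ S₂).filter (fun w => w ≠ r ∧ cov G (U₁ ∪ U₂) w = 1)).card : ℤ) := by
    set A := S₁.filter (fun w => w ≠ r ∧ cov G U₁ w = 1) with hA
    set B := S₂.filter (fun w => w ≠ c ∧ cov G U₂ w = 1) with hB
    set C := (S₁ ∪ S₂).filter (fun w => w ≠ r ∧ cov G (U₁ ∪ U₂) w = 1) with hC
    have hAC : A ⊆ C := by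
      intro w hw
      rw [hA, Finset.mem_filter] at hw
      rw [hC, Finset.mem_filter]
      exact ⟨Finset.mem_union_left _ hw.1, hw.2.1, by rw [c1 w hw.1 hw.2.1]; exact hw.2.2⟩
    have hBC : B ⊆ C := by
      intro w hw
      rw [hB, Finset.mem_filter] at hw
      rw [hC, Finset.mem_filter]
      exact ⟨Finset.mem_union_right _ hw.1, (hne' r hr w hw.1).symm,
        by rw [c2 w hw.1 hw.2.1]; exact hw.2.2⟩
    have hAB : Disjoint A B := Finset.disjoint_of_subset_left (Finset.filter_subset _ _)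
      (Finset.disjoint_of_subset_right (Finset.filter_subset _ _) hd)
    have hcA : c ∉ A := fun h => hne' c (Finset.mem_filter.1 h).1 c hc rfl
    have hcB : c ∉ B := fun h => (Finset.mem_filter.1 h).2.1 rfl
    split_ifs with h
    · have h3 : insert c (A ∪ B) ⊆ C := by
        intro w hw
        rw [Finset.mem_insert, Finset.mem_union] at hw
        rcases hw with rfl | hw | hw
        · rw [hC, Finset.mem_filter]
          exact ⟨Finset.mem_union_right _ hc, (hne' r hr _ hc).symm, h⟩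
        · exact hAC hw
        · exact hBC hw
      have h4 := Finset.card_le_card h3
      rw [Finset.card_insert_of_notMem (by rw [Finset.mem_union]; tauto),
        Finset.card_union_of_disjoint hAB] at h4
      exact_mod_cast h4
    · have h4 := Finset.card_le_card (Finset.union_subset hAC hBC)
      rw [Finset.card_union_of_disjoint hAB] at h4
      rw [add_zero]
      exact_mod_cast h4
  have hcardS : ((S₁ ∪ S₂).card : ℤ) = (S₁.card : ℤ) + (S₂.card : ℤ) := by
    rw [Finset.card_union_of_disjoint hd]; push_cast; ring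
  refine ⟨U₁ ∪ U₂, Finset.union_subset_union hU₁ hU₂, ?_, ?_⟩
  · unfold St at hs1 hs2 ⊢
    rw [hmem, c3]
    clear hcount c4 c1 c2 c3
    fin_cases s₁ <;> fin_cases s₂ <;> simp [fs] at hs1 hs2 hne ⊢ <;>
      simp [hs1, hs2] <;> omega
  · have hg : gn s₁ s₂ ≤ 5 * (if cov G (U₁ ∪ U₂) c = 1 then 1 else 0) := by
      rw [c4]
      unfold St at hs1 hs2
      clear hcount c4 c1 c2 c3
      fin_cases s₁ <;> fin_cases s₂ <;> simp [gn] at hs1 hs2 hne ⊢ <;>
        simp [hs1, hs2] <;> omega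
    rw [hcardS]
    linarith

/-- the seven families -/
def fam : Fin 7 → List (Fin 4 × ℤ) :=
  ![[(3, 0)], [(2, -1)], [(1, -2), (2, -2)], [(1, 0)], [(0, -4), (1, -4)], [(0, -3), (2, -3)],
    [(0, -2), (3, -2)]]

theorem closure : ∀ i j : Fin 7, ∃ k : Fin 7, ∀ x ∈ fam k, ∃ y ∈ fam i, ∃ z ∈ fam j,
    ¬ (y.1 = 0 ∧ z.1 = 0) ∧ fs y.1 z.1 = x.1 ∧ x.2 ≤ y.2 + z.2 + gn y.1 z.1 := by
  decide +kernel

/-- every rooted tree is of one of the seven types -/
def P (G : SimpleGraph V) (S : Finset V) (r : V) : Prop :=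
  ∃ i : Fin 7, ∀ x ∈ fam i, H G S r x.1 x.2

theorem P_base (G : SimpleGraph V) (r : V) : P G {r} r := by
  refine ⟨4, ?_⟩
  intro x hx
  have hx' : x = (0, -4) ∨ x = (1, -4) := by simpa [fam] using hx
  rcases hx' with rfl | rfl
  · refine ⟨{r}, subset_rfl, ?_, by simp⟩
    have h1 : cov G {r} r = 1 := by
      unfold cov
      rw [Finset.filter_true_of_mem]
      · simp
      · intro x hx
        exact Or.inl (Finset.mem_singleton.1 hx)
    simp [St, h1]
  · refine ⟨∅, by simp, ?_, by simp⟩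
    simp [St, cov]

theorem P_step (G : SimpleGraph V) {S₁ S₂ : Finset V} {r c : V} (hr : r ∈ S₁) (hc : c ∈ S₂)
    (hd : Disjoint S₁ S₂) (hrc : G.Adj r c)
    (hx : ∀ x ∈ S₁, ∀ y ∈ S₂, G.Adj x y → x = r ∧ y = c) (h1 : P G S₁ r) (h2 : P G S₂ c) :
    P G (S₁ ∪ S₂) r := by
  obtain ⟨i, hi⟩ := h1
  obtain ⟨j, hj⟩ := h2
  obtain ⟨k, hk⟩ := closure i j
  refine ⟨k, ?_⟩
  intro x hxk
  obtain ⟨y, hy, z, hz, hne, hf, hle⟩ := hk x hxk
  obtain ⟨U, hU, hs, hm⟩ := merge hr hc hd hrc hx (hi y hy) (hj z hz) hne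
  exact ⟨U, hU, hf ▸ hs, by linarith⟩

theorem final : ∀ i : Fin 7, ∃ x ∈ fam i,
    0 ≤ x.2 + (if x.1 = 0 ∨ x.1 = 2 then 5 else 0) := by
  decide +kernel

theorem lower (G : SimpleGraph V) (hG : G.IsTree) : 4 * Fintype.card V ≤ 5 * ESPN G := by
  obtain ⟨r⟩ := hG.connected.nonempty
  have h := Pool.Agent.H273.TreeInd.induct_tree G hG (P G) (P_base G)
    (fun S₁ S₂ r c hr hc hd hrc hx h1 h2 => P_step G hr hc hd hrc hx h1 h2) r
  obtain ⟨i, hi⟩ := h
  obtain ⟨x, hx, hx0⟩ := final i
  obtain ⟨U, -, hs, hm⟩ := hi x hx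
  have h1 := espn_ge G U
  set A := Finset.univ.filter (fun w => w ≠ r ∧ cov G U w = 1) with hA
  set B := Finset.univ.filter (fun w => cov G U w = 1) with hB
  have hAB : A ⊆ B := by
    intro w hw
    rw [hA, Finset.mem_filter] at hw
    rw [hB, Finset.mem_filter]
    exact ⟨hw.1, hw.2.2⟩
  have hrA : r ∉ A := fun h => (Finset.mem_filter.1 h).2.1 rfl
  have hcard : (A.card : ℤ) + (if x.1 = 0 ∨ x.1 = 2 then 1 else 0) ≤ (B.card : ℤ) := by
    split_ifs with h
    · have hrB : r ∈ B := by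
        rw [hB, Finset.mem_filter]
        refine ⟨Finset.mem_univ _, ?_⟩
        unfold St at hs
        rcases h with h | h
        · rw [if_pos h] at hs; exact hs.2
        · rw [h] at hs; simpa using hs.2
      have h3 : insert r A ⊆ B := Finset.insert_subset hrB hAB
      have h4 := Finset.card_le_card h3
      rw [Finset.card_insert_of_notMem hrA] at h4
      exact_mod_cast h4
    · rw [add_zero]
      exact_mod_cast Finset.card_le_card hAB
  have h2 : ((Finset.univ : Finset V).card : ℤ) = (Fintype.card V : ℤ) := by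
    rw [Finset.card_univ]
  rw [h2] at hm
  have h3 : (B.card : ℤ) ≤ (ESPN G : ℤ) := by exact_mod_cast h1
  have h4 : (4 : ℤ) * (Fintype.card V : ℤ) ≤ 5 * (ESPN G : ℤ) := by
    split_ifs at hcard hx0 <;> linarith
  exact_mod_cast h4

end lower

/-- the edges of the tree with five vertices -/
def adj5 (u v : Fin 5) : Bool :=
  [(0, 1), (0, 2), (0, 3), (3, 4), (1, 0), (2, 0), (3, 0), (4, 3)].contains (u.val, v.val)

/-- the tree with five vertices: a vertex with two leaves and a path of two further vertices -/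
def G5 : SimpleGraph (Fin 5) where
  Adj u v := adj5 u v = true
  symm := ⟨by decide⟩
  loopless := ⟨by decide⟩

instance : DecidableRel G5.Adj := fun u v => inferInstanceAs (Decidable (adj5 u v = true))

theorem G5_isTree : G5.IsTree := by
  have key : ∀ v : Fin 5, G5.Reachable 0 v := by
    have h1 : G5.Adj 0 1 := by decide
    have h2 : G5.Adj 0 2 := by decide
    have h3 : G5.Adj 0 3 := by decide
    have h4 : G5.Adj 3 4 := by decide
    intro v
    fin_cases v
    · exact SimpleGraph.Reachable.refl _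
    · exact h1.reachable
    · exact h2.reachable
    · exact h3.reachable
    · exact h3.reachable.trans h4.reachable
  rw [SimpleGraph.isTree_iff_connected_and_card]
  refine ⟨{ preconnected := fun u v => (key u).symm.trans (key v), nonempty := ⟨0⟩ }, ?_⟩
  rw [Nat.card_eq_fintype_card, ← SimpleGraph.edgeFinset_card]
  simp only [Nat.card_eq_fintype_card, Fintype.card_fin]
  decide +kernel

theorem bad5 : ∀ U : Finset (Fin 5), ∃ w : Fin 5,
    ¬ (w ∉ U ∧ ∃ x, (adj5 w x = true ∧ x ∈ U) ∧ ∀ y, adj5 w y = true ∧ y ∈ U → y = x) ∧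
    ¬ (w ∈ U ∧ ∀ x ∈ U, ¬ adj5 w x = true) := by
  decide +kernel

theorem ESPN_G5 : ESPN G5 ≤ 4 := by
  unfold ESPN
  refine Finset.sup_le ?_
  intro U _
  have hd : Disjoint (external G5 U) (selfp G5 U) := by
    rw [Finset.disjoint_left]
    intro w hw hw'
    exact (mem_external.1 hw).1 (mem_selfp.1 hw').1
  have h1 : (external G5 U ∪ selfp G5 U).card ≤ 4 := by
    obtain ⟨w, hw1, hw2⟩ := bad5 U
    have h2 : external G5 U ∪ selfp G5 U ⊆ Finset.univ.erase w := by
      intro x hx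
      rw [Finset.mem_erase]
      refine ⟨?_, Finset.mem_univ _⟩
      rintro rfl
      rw [Finset.mem_union] at hx
      rcases hx with hx | hx
      · exact hw1 (mem_external.1 hx)
      · exact hw2 (mem_selfp.1 hx)
    refine (Finset.card_le_card h2).trans ?_
    simp
  rw [Finset.card_union_of_disjoint hd] at h1
  exact h1

/-- **Theorem.** `4/5` is the largest constant `c` with `ESPN(T) ≥ c n(T)` for every finite tree
`T`, and it is the least value of the ratio `ESPN(T)/n(T)`. -/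
theorem result :
    IsGreatest {c : ℝ | ∀ (V : Type) [Fintype V] (T : SimpleGraph V), T.IsTree →
      c * (Fintype.card V : ℝ) ≤ (ESPN T : ℝ)} (4 / 5) ∧
    IsLeast {x : ℝ | ∃ (n : ℕ) (T : SimpleGraph (Fin n)), T.IsTree ∧
      x = (ESPN T : ℝ) / (n : ℝ)} (4 / 5) := by
  have hlow : ∀ (V : Type) [Fintype V] (T : SimpleGraph V), T.IsTree →
      (4 / 5 : ℝ) * (Fintype.card V : ℝ) ≤ (ESPN T : ℝ) := by
    intro V _ T hT
    have h : ((4 * Fintype.card V : ℕ) : ℝ) ≤ ((5 * ESPN T : ℕ) : ℝ) := by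
      exact_mod_cast lower T hT
    push_cast at h
    linarith
  have h5 : (ESPN G5 : ℝ) = 4 := by
    have h1 := hlow (Fin 5) G5 G5_isTree
    have h2 : (ESPN G5 : ℝ) ≤ 4 := by exact_mod_cast ESPN_G5
    rw [Fintype.card_fin] at h1
    push_cast at h1
    linarith
  refine ⟨⟨hlow, ?_⟩, ⟨?_, ?_⟩⟩
  · intro c hc
    have h := hc (Fin 5) G5 G5_isTree
    rw [h5, Fintype.card_fin] at h
    push_cast at h
    linarith
  · refine ⟨5, G5, G5_isTree, ?_⟩
    rw [h5]
    norm_num
  · rintro x ⟨n, T, hT, rfl⟩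
    have h := hlow (Fin n) T hT
    rw [Fintype.card_fin] at h
    have hn : (0 : ℝ) < (n : ℝ) := by
      obtain ⟨r⟩ := hT.connected.nonempty
      have : 0 < n := lt_of_le_of_lt (Nat.zero_le _) r.isLt
      exact_mod_cast this
    rw [le_div_iff₀ hn]
    exact h

end Pool.Agent.Results.MP_0d27c8_co.FourFifths
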